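import Pool.Agent.AltAll.Fin30
import Pool.Agent.AltAll.Win6

/-! Every balanced two-coloured set in general position has a simple alternating path with
n + c n^(1/9) / log n vertices. -/

namespace Pool.Agent.Results.MP_421d50_co.AllSets

open Pool.Agent.AltPath Pool.Agent.AltAll Pool.Agent.AltALL6

/-- There is c > 0 such that for all n at least 2 and all disjoint sets R and B of n points each,
no three of the 2n points collinear, there is a simple alternating path with at least
n + c n^(1/9) / log n vertices. -/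
theorem result : ∃ c : ℝ, 0 < c ∧ ∀ (n : ℕ) (R B : Finset (ℝ × ℝ)), 2 ≤ n → R.card = n →
    B.card = n → Disjoint R B →
    (∀ p ∈ R ∪ B, ∀ q ∈ R ∪ B, ∀ r ∈ R ∪ B, p ≠ q → p ≠ r → q ≠ r →
      ¬ Collinear ℝ ({p, q, r} : Set (ℝ × ℝ))) →
    ∃ k : ℕ, HasPath R B k ∧ (n : ℝ) + c * (n : ℝ) ^ (1 / 9 : ℝ) / Real.log n ≤ k := by
  obtain ⟨c, hc, h⟩ := real30 win6
  exact ⟨c, hc, fun n R B hn hR hB hdis hgen =>
    h n R B hn hR hB hdis (gp_of_not_collinear hgen)⟩

end Pool.Agent.Results.MP_421d50_co.AllSets
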