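import Pool.Agent.AltFew.Main55

/-! Few exceptional colourings: for every point set, all but few balanced colourings have a simple
alternating path with n + g vertices. -/

namespace Pool.Agent.Results.MP_421d50_co.FewExceptional

open Pool.Agent.AltPath Pool.Agent.AltFew

open scoped Classical in
/-- For every set P of 2n points in general position and 1 ≤ g ≤ n, at most
exp(2000 g log(2n/g)^3) balanced colourings have no simple alternating path with at least n + g
vertices. -/
theorem result (n g : ℕ) (hg : 1 ≤ g) (hgn : g ≤ n) (P : Finset (ℝ × ℝ)) (hcard : P.card = 2 * n)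
    (hgen : ∀ p ∈ P, ∀ q ∈ P, ∀ r ∈ P, p ≠ q → p ≠ r → q ≠ r →
      ¬ Collinear ℝ ({p, q, r} : Set (ℝ × ℝ))) :
    (((P.powersetCard n).filter fun R =>
      ¬ ∃ k : ℕ, n + g ≤ k ∧ HasPath R (P \ R) k).card : ℝ) ≤
        Real.exp (2000 * g * Real.log (2 * n / g) ^ 3) := by
  refine main55 (gp_of_not_collinear hgen) hcard hg hgn _ ?_
  intro R hR
  obtain ⟨h1, h2⟩ := Finset.mem_filter.mp hR
  obtain ⟨h3, h4⟩ := Finset.mem_powersetCard.mp h1
  exact ⟨h3, h4, fun hp => h2 ⟨n + g, le_refl _, hp⟩⟩

end Pool.Agent.Results.MP_421d50_co.FewExceptional
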