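import Pool.Agent.AltFew.Isl34

/-! A set which is not covered by few one-coloured islands has a long simple alternating path. -/

namespace Pool.Agent.Results.MP_421d50_co.Islands

open Pool.Agent.AltPath Pool.Agent.AltFew

/-- Let R and B be disjoint sets of n points each, no three of the 2n points collinear. An island is
a set of points of one colour whose convex hull contains no point of the other colour. If every
family of islands which covers R ∪ B has at least t members, then there is a simple alternating path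
with at least n + t / (4096 log2 (4 n / t)) vertices. -/
theorem result (n t : ℕ) (ht : 1 ≤ t) (R B : Finset (ℝ × ℝ)) (hR : R.card = n) (hB : B.card = n)
    (hdis : Disjoint R B)
    (hgen : ∀ p ∈ R ∪ B, ∀ q ∈ R ∪ B, ∀ r ∈ R ∪ B, p ≠ q → p ≠ r → q ≠ r →
      ¬ Collinear ℝ ({p, q, r} : Set (ℝ × ℝ)))
    (hcov : ∀ C : Finset (Finset (ℝ × ℝ)),
      (∀ F ∈ C, (F ⊆ R ∧ ∀ q ∈ B, q ∉ convexHull ℝ (F : Set (ℝ × ℝ))) ∨
        (F ⊆ B ∧ ∀ q ∈ R, q ∉ convexHull ℝ (F : Set (ℝ × ℝ)))) →
      (∀ p ∈ R ∪ B, ∃ F ∈ C, p ∈ F) → t ≤ C.card) :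
    ∃ k : ℕ, HasPath R B k ∧ (n : ℝ) + t / (4096 * Real.logb 2 (4 * n / t)) ≤ k :=
  islands34 hdis (gp_of_not_collinear hgen) hR hB ht hcov

end Pool.Agent.Results.MP_421d50_co.Islands
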